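import Pool.Agent.Y489.GE.Stm2

/-!
Project GE (helper489), part CONE: filling of one simplex.
-/

set_option autoImplicit false

open Set Topology

namespace Pool.Agent.Y73.GE

open Pool.Agent.Y489.GE

set_option linter.unusedSectionVars false

variable {W : Type} [Fintype W]

theorem bd_compact (σ : Finset W) : IsCompact (Bd σ) := by
  have hsub : Bd σ ⊆ Set.pi univ (fun _ : W => Icc (0 : ℝ) 1) := by
    rintro y ⟨⟨h1, h2, _⟩, _⟩ w _
    refine ⟨h1 w, ?_⟩
    rw [← h2]
    exact Finset.single_le_sum (fun i _ => h1 i) (Finset.mem_univ w)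
  have hc : IsClosed (Bd σ) := by
    have h1 : Bd σ = (({y : W → ℝ | ∀ w, 0 ≤ y w} ∩ {y : W → ℝ | ∑ w, y w = 1}) ∩
        {y : W → ℝ | ∀ w, w ∉ σ → y w = 0}) ∩ ⋃ w ∈ (σ : Set W), {y : W → ℝ | y w = 0} := by
      ext y
      constructor
      · rintro ⟨⟨h1, h2, h3⟩, w, hw, h4⟩
        refine ⟨⟨⟨h1, h2⟩, ?_⟩, ?_⟩
        · intro w hw
          by_contra h
          exact hw (h3 w h)
        · exact mem_biUnion hw h4
      · rintro ⟨⟨⟨h1, h2⟩, h3⟩, h4⟩
        rw [mem_iUnion₂] at h4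
        obtain ⟨w, hw, h4⟩ := h4
        refine ⟨⟨h1, h2, ?_⟩, w, hw, h4⟩
        intro w hw
        by_contra h
        exact hw (h3 w h)
    rw [h1]
    refine ((IsClosed.inter ?_ ?_).inter ?_).inter ?_
    · simp only [ofPred_forall]
      exact isClosed_iInter fun w => isClosed_le continuous_const (continuous_apply w)
    · exact isClosed_eq (continuous_finsetSum _ fun w _ => continuous_apply w) continuous_const
    · simp only [ofPred_forall]
      exact isClosed_iInter fun w => isClosed_iInter fun _ =>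
        isClosed_eq (continuous_apply w) continuous_const
    · exact σ.finite_toSet.isClosed_biUnion fun w _ =>
        isClosed_eq (continuous_apply w) continuous_const
  exact (isCompact_univ_pi (fun _ => isCompact_Icc)).of_isClosed_subset hc hsub

open Classical in
/-- the barycentre -/
noncomputable def bc (σ : Finset W) (w : W) : ℝ := if w ∈ σ then (σ.card : ℝ)⁻¹ else 0

theorem bc_sum (σ : Finset W) (h : 2 ≤ σ.card) : ∑ w, bc σ w = 1 := by
  classical
  unfold bc
  rw [Finset.sum_ite_mem, Finset.univ_inter, Finset.sum_const, nsmul_eq_mul]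
  have : (σ.card : ℝ) ≠ 0 := by
    have : σ.card ≠ 0 := by omega
    exact_mod_cast this
  exact mul_inv_cancel₀ this

theorem bc_nonneg (σ : Finset W) (w : W) : 0 ≤ bc σ w := by
  unfold bc
  split_ifs
  · positivity
  · exact le_rfl

theorem bc_mem (σ : Finset W) {w : W} (h : w ∈ σ) : bc σ w = (σ.card : ℝ)⁻¹ := by
  unfold bc
  rw [if_pos h]

theorem bc_not_mem (σ : Finset W) {w : W} (h : w ∉ σ) : bc σ w = 0 := by
  unfold bc
  rw [if_neg h]

theorem sum_mem {σ : Finset W} {y : W → ℝ} (hy : y ∈ Fac σ) : ∑ w ∈ σ, y w = 1 := by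
  rw [← hy.2.1]
  apply Finset.sum_subset (Finset.subset_univ _)
  intro w _ hw
  by_contra h
  exact hw (hy.2.2 w h)

/-- the cone map -/
noncomputable def cone (σ : Finset W) (h : 2 ≤ σ.card) (z : ↥(Bd σ) × ↥(Icc (0 : ℝ) 1)) :
    ↥(Fac σ) :=
  ⟨fun w => (1 - z.2.1) * bc σ w + z.2.1 * z.1.1 w, by
    obtain ⟨⟨y, hy, _⟩, ⟨u, hu0, hu1⟩⟩ := z
    refine ⟨fun w => ?_, ?_, fun w hw => ?_⟩
    · exact add_nonneg (mul_nonneg (sub_nonneg.2 hu1) (bc_nonneg σ w)) (mul_nonneg hu0 (hy.1 w))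
    · rw [Finset.sum_add_distrib, ← Finset.mul_sum, ← Finset.mul_sum, bc_sum σ h, hy.2.1]
      ring
    · by_contra h1
      apply hw
      have h2 : y w = 0 := by
        by_contra h3
        exact h1 (hy.2.2 w h3)
      show (1 - u) * bc σ w + u * y w = 0
      rw [bc_not_mem σ h1, h2]
      ring⟩

theorem cone_cont (σ : Finset W) (h : 2 ≤ σ.card) : Continuous (cone σ h) := by
  apply Continuous.subtype_mk
  apply continuous_pi
  intro w
  have h1 : Continuous (fun z : ↥(Bd σ) × ↥(Icc (0 : ℝ) 1) => z.2.1) :=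
    continuous_subtype_val.comp continuous_snd
  have h2 : Continuous (fun z : ↥(Bd σ) × ↥(Icc (0 : ℝ) 1) => z.1.1 w) :=
    (continuous_apply w).comp (continuous_subtype_val.comp continuous_fst)
  exact ((continuous_const.sub h1).mul continuous_const).add (h1.mul h2)

theorem cone_le (σ : Finset W) (h : 2 ≤ σ.card) (z z' : ↥(Bd σ) × ↥(Icc (0 : ℝ) 1))
    (hz : cone σ h z = cone σ h z') : z.2.1 ≤ z'.2.1 := by
  obtain ⟨⟨y, hy, w, hw, hyw⟩, ⟨u, hu0, hu1⟩⟩ := z
  obtain ⟨⟨y', hy', _⟩, ⟨u', hu0', hu1'⟩⟩ := z'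
  have h1 : (1 - u) * bc σ w + u * y w = (1 - u') * bc σ w + u' * y' w :=
    congrFun (congrArg Subtype.val hz) w
  rw [bc_mem σ hw, hyw] at h1
  have h2 : 0 ≤ u' * y' w := mul_nonneg hu0' (hy'.1 w)
  have h3 : (0 : ℝ) < (σ.card : ℝ)⁻¹ := by
    have : 0 < σ.card := by omega
    positivity
  show u ≤ u'
  by_contra h4
  push Not at h4
  nlinarith

theorem cone_inj (σ : Finset W) (h : 2 ≤ σ.card) (z z' : ↥(Bd σ) × ↥(Icc (0 : ℝ) 1))
    (hz : cone σ h z = cone σ h z') : z.2 = z'.2 ∧ (z.2.1 ≠ 0 → z.1 = z'.1) := by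
  have h1 : z.2 = z'.2 :=
    Subtype.ext (le_antisymm (cone_le σ h z z' hz) (cone_le σ h z' z hz.symm))
  refine ⟨h1, ?_⟩
  intro h2
  apply Subtype.ext
  ext w
  have h3 : (1 - z.2.1) * bc σ w + z.2.1 * z.1.1 w = (1 - z'.2.1) * bc σ w + z'.2.1 * z'.1.1 w :=
    congrFun (congrArg Subtype.val hz) w
  rw [← h1] at h3
  have h4 : z.2.1 * z.1.1 w = z.2.1 * z'.1.1 w := by linarith
  exact mul_left_cancel₀ h2 h4

theorem bd_nonempty (σ : Finset W) (h : 2 ≤ σ.card) : Nonempty ↥(Bd σ) := by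
  classical
  obtain ⟨a, ha, b, hb, hab⟩ := Finset.one_lt_card.1 (show 1 < σ.card by omega)
  refine ⟨⟨Pi.single a 1, ⟨fun w => ?_, ?_, fun w hw => ?_⟩, b, hb, ?_⟩⟩
  · by_cases hw : w = a
    · rw [hw, Pi.single_eq_same]
      exact zero_le_one
    · rw [Pi.single_eq_of_ne hw]
  · rw [Finset.sum_pi_single']
    simp
  · by_cases hwa : w = a
    · rwa [hwa]
    · exact absurd (Pi.single_eq_of_ne hwa _) hw
  · exact Pi.single_eq_of_ne hab.symm _

theorem cone_surj (σ : Finset W) (h : 2 ≤ σ.card) : Function.Surjective (cone σ h) := by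
  rintro ⟨y, hy⟩
  have hk : (0 : ℝ) < σ.card := by
    have : 0 < σ.card := by omega
    exact_mod_cast this
  obtain ⟨w0, hw0, hmin⟩ := Finset.exists_min_image σ y (Finset.card_pos.1 (by omega))
  have hsum := sum_mem hy
  have h1 : (σ.card : ℝ) * y w0 ≤ 1 := by
    rw [← hsum, ← nsmul_eq_mul]
    exact Finset.card_nsmul_le_sum σ y (y w0) hmin
  have h0 : 0 ≤ (σ.card : ℝ) * y w0 := mul_nonneg hk.le (hy.1 w0)
  by_cases hu : (σ.card : ℝ) * y w0 = 1
  · obtain ⟨v⟩ := bd_nonempty σ h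
    refine ⟨(v, ⟨0, by norm_num, by norm_num⟩), ?_⟩
    apply Subtype.ext
    ext w
    show (1 - 0) * bc σ w + 0 * v.1 w = y w
    have h2 : ∑ w ∈ σ, (y w - y w0) = 0 := by
      rw [Finset.sum_sub_distrib, hsum, Finset.sum_const, nsmul_eq_mul, hu, sub_self]
    rw [Finset.sum_eq_zero_iff_of_nonneg (fun w hw => sub_nonneg.2 (hmin w hw))] at h2
    have h3 : y w0 = (σ.card : ℝ)⁻¹ := eq_inv_of_mul_eq_one_right hu
    by_cases hw : w ∈ σ
    · have := h2 w hw
      rw [bc_mem σ hw]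
      linarith
    · rw [bc_not_mem σ hw]
      have : y w = 0 := by
        by_contra h4
        exact hw (hy.2.2 w h4)
      linarith
  · set u := 1 - (σ.card : ℝ) * y w0 with hu'
    have hu0 : 0 < u := by
      rw [hu', sub_pos]
      exact lt_of_le_of_ne h1 hu
    have hb : ∀ w ∈ σ, (1 - u) * bc σ w = y w0 := by
      intro w hw
      rw [bc_mem σ hw, hu']
      field_simp
      ring
    have hmem : (fun w => (y w - (1 - u) * bc σ w) / u) ∈ Bd σ := by
      refine ⟨⟨fun w => ?_, ?_, fun w hw => ?_⟩, w0, hw0, ?_⟩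
      · apply div_nonneg _ hu0.le
        by_cases hw : w ∈ σ
        · rw [hb w hw]
          exact sub_nonneg.2 (hmin w hw)
        · rw [bc_not_mem σ hw, mul_zero, sub_zero]
          exact hy.1 w
      · rw [← Finset.sum_div, Finset.sum_sub_distrib, ← Finset.mul_sum, bc_sum σ h, hy.2.1]
        field_simp
        ring
      · by_contra h2
        apply hw
        have h3 : y w = 0 := by
          by_contra h4
          exact h2 (hy.2.2 w h4)
        show (y w - (1 - u) * bc σ w) / u = 0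
        rw [bc_not_mem σ h2, h3]
        simp
      · show (y w0 - (1 - u) * bc σ w0) / u = 0
        rw [hb w0 hw0, sub_self, zero_div]
    refine ⟨(⟨_, hmem⟩, ⟨u, hu0.le, by rw [hu']; linarith⟩), ?_⟩
    apply Subtype.ext
    ext w
    show (1 - u) * bc σ w + u * ((y w - (1 - u) * bc σ w) / u) = y w
    rw [mul_div_cancel₀ _ hu0.ne']
    ring

theorem t_CONE : S_CONE := by
  classical
  intro X W _ _ σ hσ p H hH hH0
  have hcomp : CompactSpace ↥(Bd σ) := isCompact_iff_compactSpace.1 (bd_compact σ)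
  have hq : IsQuotientMap (cone σ hσ) :=
    (cone_cont σ hσ).isClosedMap.isQuotientMap (cone_cont σ hσ) (cone_surj σ hσ)
  set f : ↥(Bd σ) × ↥(Icc (0 : ℝ) 1) → X := fun z => H z.1 z.2.1 with hf
  have hfc : Continuous f :=
    hH.comp (continuous_fst.prodMk (continuous_subtype_val.comp continuous_snd))
  have hfac : ∀ z z', cone σ hσ z = cone σ hσ z' → f z = f z' := by
    intro z z' h
    obtain ⟨h1, h2⟩ := cone_inj σ hσ z z' h
    by_cases h0 : z.2.1 = 0
    · rw [hf]
      dsimp only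
      rw [← h1, h0, hH0, hH0]
    · rw [Prod.ext (h2 h0) h1]
  set g₀ : ↥(Fac σ) → X := fun y => f (Function.surjInv (cone_surj σ hσ) y) with hg₀
  have hg₀c : g₀ ∘ cone σ hσ = f := by
    ext z
    apply hfac
    exact Function.surjInv_eq (cone_surj σ hσ) _
  have hg₀' : Continuous g₀ := by
    rw [hq.continuous_iff, hg₀c]
    exact hfc
  refine ⟨fun y => if h : y ∈ Fac σ then g₀ ⟨y, h⟩ else p, ?_, ?_, ?_⟩
  · rw [continuousOn_iff_continuous_domRestrict]
    have h1 : (Fac σ).domRestrict (fun y => if h : y ∈ Fac σ then g₀ ⟨y, h⟩ else p) = g₀ := by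
      ext y
      rw [domRestrict_apply, dif_pos y.2]
    rw [h1]
    exact hg₀'
  · intro y
    dsimp only
    rw [dif_pos y.2.1]
    have h1 : (⟨y.1, y.2.1⟩ : ↥(Fac σ)) = cone σ hσ (y, ⟨1, by norm_num, le_rfl⟩) := by
      apply Subtype.ext
      ext w
      show y.1 w = (1 - 1) * bc σ w + 1 * y.1 w
      ring
    rw [h1]
    exact congrFun hg₀c _
  · intro y hy
    dsimp only
    rw [dif_pos hy]
    exact ⟨_, _, (Function.surjInv (cone_surj σ hσ) ⟨y, hy⟩).2.2, rfl⟩

end Pool.Agent.Y73.GE
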